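import Mathlib
import Pool.Agent.H51.GongC

set_option autoImplicit false

namespace Pool.Agent.Results.MP_388f8c_an.Example

open Filter Topology Pool.Agent.H51.GongC

/-- A (pointed) cone: nonempty, closed under sums and nonnegative multiples, `C ∩ (-C) = {0}`. -/
def IsCone {X : Type} [NormedAddCommGroup X] [NormedSpace ℝ X] (C : Set X) : Prop :=
  C.Nonempty ∧ (∀ x ∈ C, ∀ y ∈ C, x + y ∈ C) ∧ (∀ t : ℝ, 0 ≤ t → ∀ x ∈ C, t • x ∈ C) ∧
    C ∩ (-C) = {0}

/-- A base of the cone `C`. -/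
def IsBase {X : Type} [NormedAddCommGroup X] [NormedSpace ℝ X] (C B : Set X) : Prop :=
  B.Nonempty ∧ Convex ℝ B ∧ B ⊆ C ∧ (0 : X) ∉ closure B ∧
    ∀ c ∈ C, c ≠ 0 → ∃! p : ℝ × X, 0 < p.1 ∧ p.2 ∈ B ∧ c = p.1 • p.2

theorem result :
    ∃ (X : Type) (_ : NormedAddCommGroup X) (_ : NormedSpace ℝ X) (C : Set X),
      IsCone C ∧ IsClosed C ∧
      (∀ ε : ℝ, 0 < ε → ε < 1 →
        (0 : WeakSpace ℝ X) ∉ closure (toWeakSpace ℝ X '' (C \ Metric.closedBall 0 ε))) ∧
      ¬ ∃ B : Set X, IsBase C B ∧ Bornology.IsBounded B := by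
  refine ⟨XS, inferInstance, inferInstance, C, ⟨⟨_, u_mem 0⟩, fun x hx y hy => ?_,
    fun t ht x hx => ?_, ?_⟩, ?_, fun ε hε _ => ?_, ?_⟩
  · exact (norm_add_le x.1.2 y.1.2).trans (add_le_add hx hy)
  · change ‖t • x.1.2‖ ≤ t * x.1.2 (0 : ℕ)
    rw [norm_smul, Real.norm_of_nonneg ht]
    exact mul_le_mul_of_nonneg_left hx ht
  · ext x
    simp only [Set.mem_inter_iff, Set.mem_neg, Set.mem_singleton_iff]
    constructor
    · rintro ⟨h1, h2⟩
      have a1 : ‖x.1.2‖ ≤ x.1.2 (0 : ℕ) := h1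
      have a2 : ‖-x.1.2‖ ≤ -x.1.2 (0 : ℕ) := h2
      rw [norm_neg] at a2
      have a3 : x.1.2 = 0 := norm_le_zero_iff.1 (by linarith)
      have a4 : HasSum (fun n : ℕ => (-1) ^ n * (n : ℝ) * x.1.2 n) x.1.1 := x.2
      rw [a3] at a4
      simp only [ContinuousMap.zero_apply, mul_zero] at a4
      apply Subtype.ext
      exact Prod.ext (a4.unique hasSum_zero) a3
    · rintro rfl
      have : (0 : XS) ∈ C := by simp [C]
      exact ⟨this, by simpa using this⟩
  · exact isClosed_le (continuous_snd.comp continuous_subtype_val).norm f2.continuous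
  · intro h
    have c1 : Continuous fun x : WeakSpace ℝ XS => f1 ((toWeakSpace ℝ XS).symm x) :=
      WeakBilin.eval_continuous (topDualPairing ℝ XS).flip f1
    have c2 : Continuous fun x : WeakSpace ℝ XS => f2 ((toWeakSpace ℝ XS).symm x) :=
      WeakBilin.eval_continuous (topDualPairing ℝ XS).flip f2
    have hcl : IsClosed {x : WeakSpace ℝ XS |
        ε ≤ max |f1 ((toWeakSpace ℝ XS).symm x)| |f2 ((toWeakSpace ℝ XS).symm x)|} :=
      isClosed_le continuous_const (c1.abs.max c2.abs)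
    have := closure_minimal (s := toWeakSpace ℝ XS '' (C \ Metric.closedBall 0 ε)) (by
      rintro _ ⟨x, ⟨hx1, hx2⟩, rfl⟩
      rw [mem_closedBall_zero_iff, not_le] at hx2
      simp only [Set.mem_setOf_eq, LinearEquiv.symm_apply_apply]
      exact hx2.le.trans (norm_le hx1)) hcl h
    simp at this
    linarith
  · rintro ⟨B, ⟨_, h2, _, h4, h5⟩, hb⟩
    obtain ⟨M, hM⟩ := isBounded_iff_forall_norm_le.1 hb
    refine no_base B h2 h4 (fun m => ?_) M hM
    obtain ⟨⟨t, b⟩, ⟨a1, a2, a3⟩, _⟩ := h5 (u m) (u_mem m) (u_ne m)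
    refine ⟨t⁻¹, inv_pos.2 a1, ?_⟩
    simp only at a1 a2 a3
    rw [a3, smul_smul, inv_mul_cancel₀ a1.ne', one_smul]
    exact a2

end Pool.Agent.Results.MP_388f8c_an.Example
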